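import Mathlib
import Pool.Agent.H19.FreeBall

set_option autoImplicit false

namespace Pool.Agent.Results.MP_15e198_al.BallFormula

open Pool.Agent.H19.FreeBall

/-- `N(r,n)`: the largest size of a subset of the ball of radius `n` of `F_r` that freely
generates a subgroup is `0` for `n = 0`, `(2r-1)^k` for `n = 2k > 0` and `r (2r-1)^k` for
`n = 2k+1`. -/
theorem result (r n : ℕ) (hr : 1 ≤ r) :
    IsGreatest {m : ℕ | ∃ X : Finset (FreeGroup (Fin r)), X.card = m ∧ (∀ x ∈ X, x.norm ≤ n) ∧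
        Function.Injective (FreeGroup.lift (fun x : X => (x : FreeGroup (Fin r))))}
      (if n = 0 then 0 else if n % 2 = 0 then (2 * r - 1) ^ (n / 2)
        else r * (2 * r - 1) ^ (n / 2)) := by
  split_ifs with h0 h2
  · subst h0
    refine ⟨⟨∅, rfl, by simp, fun a b _ => Subsingleton.elim a b⟩, ?_⟩
    rintro _ ⟨X, rfl, h1, h2⟩
    rw [Nat.le_zero, Finset.card_eq_zero, Finset.eq_empty_iff_forall_notMem]
    intro x hx
    have h3 : x = 1 := FreeGroup.norm_eq_zero.mp (Nat.le_zero.mp (h1 x hx))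
    exact FreeGroup.of_ne_one (⟨x, hx⟩ : X) (h2 (by simp [h3]))
  · obtain ⟨k, rfl⟩ : ∃ k, n = 2 * (k + 1) := ⟨n / 2 - 1, by omega⟩
    rw [show 2 * (k + 1) / 2 = k + 1 by omega]
    obtain ⟨X, h1, h3, h4⟩ := lower_even hr k
    refine ⟨⟨X, h1, fun x hx => (h3 x hx).le, h4⟩, ?_⟩
    rintro _ ⟨Y, rfl, h5, h6⟩
    exact upper_even hr _ Y h6 h5
  · obtain ⟨k, rfl⟩ : ∃ k, n = 2 * k + 1 := ⟨n / 2, by omega⟩
    rw [show (2 * k + 1) / 2 = k by omega]
    obtain ⟨X, h1, h3, h4⟩ := lower_odd (r := r) k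
    refine ⟨⟨X, h1, fun x hx => (h3 x hx).le, h4⟩, ?_⟩
    rintro _ ⟨Y, rfl, h5, h6⟩
    exact upper_odd hr _ Y h6 h5

end Pool.Agent.Results.MP_15e198_al.BallFormula
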